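import Pool.Agent.X180.OK.Tors
import Pool.Agent.X325.OB.LcBase

/-!
# Abundance for effective divisors on Calabi-Yau varieties over arrangements in products of
projective spaces

Let `X` be a normal projective variety with `m₀ K_X ~ 0`, `m₀ ≥ 1`, and `L` an effective divisor on `X`.
A prime divisor of `X` is *relevant* if it is not in the support of `L`, and not in the base locus of
all `m (K_X + L + η A)`, for small `η ≥ 0` (`A` a given effective divisor; so the divisors in the
diminished base locus of `L` may be neglected; if `L` is nef and `A` is ample, all prime divisors of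
`X ∖ Supp L` are relevant). Let

  `X ⇢ W_l ⇢ ... ⇢ W_1 ⇢ W_0`, `l ≥ 0`,

be dominant rational maps. Suppose:

* (the base) `W_0` is a product of projective spaces `P^{n_1} × ... × P^{n_m}`; in each factor there are
  hyperplanes `ℓ i k = 0`, in any position, with weights `wt i k ≥ 0`, such that the arrangement is log
  canonical (the sum of the weights of hyperplanes with a common point is at most the codimension of
  their intersection) and `∑ k, wt i k ≥ n_i + 1`. If `v i k` are the multiplicities of the hyperplanes
  at a relevant prime divisor `P`, not all zero, then `∑ (mx_i - ∑ wt i k v i k) ≥ 1`, where `mx_i` is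
  the greatest sum of `n_i + 1` of the `v i k` whose hyperplanes have no common point; and the
  inequality is strict, if `∑ k, wt i k = n_i + 1` for some `i` for which the multiplicity of one
  distinguished hyperplane is positive. (There is no condition at the hyperplanes whose preimages are
  in `Supp L`: so the distinguished hyperplane may be one of these.)
* (the steps of the tower) for each `i < l` the fibres of `W_{i+1}` over `W_i`, of dimension `e_i`,
  *with the multiplicities of the fibres of `X ∖ Supp L` over `W_{i+1}`*, correspond to the product of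
  one orbifold `V_i` (which does not depend on the point of `W_i`) and of moving log canonical
  arrangements: there are a variety `X'` with a generically finite map `X' ⇢ X` (ramified anywhere)
  and a rational map of `X'` to `V_i × P^{r_1} × ... × P^{r_c}`, `r_j ≥ 1`, which is dominant on the
  fibres of `X'` over `W_i`, and whose fibres (over `W_i`) are, up to finite maps, the fibres of
  `X' ⇢ W_{i+1}`; `a (p) ≥ 0` is the log discrepancy of an orbifold divisor at the places `p` of `V_i`
  in the image of the relevant prime divisors, and the Kodaira dimension of `(V_i, a)` is at least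
  `h_i`; in each `P^{r_j}` there are any hyperplanes `A j k = 0`, in any position, which move with the
  point of a variety finite over `W_i`, with weights `w j k ≥ 0`, such that the arrangement is log
  canonical (the sum of the weights of hyperplanes with a common point is at most the codimension of
  their intersection) and `∑ k, w j k ≥ r_j + 1`. Let `Q` be a place of the function field of `X'` over
  a relevant prime divisor which dominates `W_i` but not `W_{i+1}`, with ramification index `ε`, let
  `e j k` be the multiplicities of the hyperplanes at `Q`, and `R = ∑ (mx_j - ∑ w j k e j k)`, where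
  `mx_j` is the greatest sum of `r_j + 1` of the `e j k` whose hyperplanes have no common point. Then
  `ε ≤ ν a (p) + R` if `Q` lies over the place `p` of `V_i`, with ramification index `ν`; and if `Q`
  dominates `V_i` then `ε ≤ R`, or `ε ≤ 1` if all `e j k` are zero. Suppose that `h_i` plus the sum of
  the `r_j` with `∑ k, w j k > r_j + 1` is `e_i`.
* (the fibres of `X` over `W_l`) there is a correspondence `X'` as above between `X` and a relative
  product `P^{r_1} × ... × P^{r_c}` over `W_l` (`c = 0` is allowed), with log canonical moving hyperplane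
  arrangements with weights in `[0, 1]` and `ε ≤ R` (`ε ≤ 1`, if all `e j k` are zero) at the relevant
  prime divisors which dominate `W_l`; and at the places over the prime divisors of the product
  `K_X + L` is at most the pull back of the log canonical divisor of the arrangement (`Cor`).

Then `∑ k, w j k ≥ r_j + 1` for all `j` (for the fibres over `W_l`), and

  `κ(K_X + L') = ν(K_X + L') = dim W_l + λ`

for all effective `ℚ`-divisors `L'` with `Supp L' = Supp L`, where `λ` is the sum of the `r_j` with
`∑ k, w j k > r_j + 1`. As `m₀ K_X ~ 0`, this means that `κ(L') = ν(L') = dim W_l + λ`.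

Relation with the question: let `X` be a Calabi-Yau manifold and `L'` a nef effective divisor on `X`, `L`
a small multiple of `L'` with these properties. By the theorem `κ(L') = ν(L')`, so `K_X + t L'` is nef
and abundant, and `(X, t L')` is klt for small `t > 0`; so `L'` is semiample (Kawamata 1985), and the
morphism `g` with `L' = g^* L_B` is the Iitaka fibration of `L'` (which is unique).

Notation: `X` is given by the homogeneous coordinates `y` of its generic point, with values in the
function field `K`; prime divisors are places `P` of `K`, `P.ord` is the order along `P`. `E i` is the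
function field of `W_i`. `kodairaDim` and `numericalDim` are the literal definitions of the Kodaira
and of the numerical dimension of `K_X + L` by means of the dimensions of the spaces of sections of
`m (K_X + L)` and of `m (K_X + L) + A`. Definitions: `Pool/Agent/X180/OK/Defs` (`TorsionCanonical`,
`SameSupport`), `OJ/Defs` (`JointFibres`, `IsTower`), `OP/Defs`, `AbDefs`.

Proof: the theorem is deduced from a theorem on pairs `(X, Δ)`, for `Δ = Γ = L`, where `Γ` is a divisor
along which there are no conditions if `K_X + Δ - Γ` is pseudo-effective: here it is trivial. The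
forms of a step are products of the pull backs of the forms of `V_i`, of determinants of logarithmic
derivatives of the linear forms, and of one joint Wronskian of the coordinates of `V_i` and of the
`P^{r_j}` (`Pool.Agent.X180.OJ.joint_est`). They are multiplied along adapted regular vector fields,
and with the logarithmic forms of the factors of the base (`Pool.Agent.X325.OB.lc_base`).
-/

set_option autoImplicit false

open FF Pool.Agent.W602.GT Pool.Agent.Y172 Pool.Agent.Y191
open Pool.Agent.X180.OP (Fibres Relevant big)
open Pool.Agent.X180.OJ (IsTower)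
open Pool.Agent.X180.OK

namespace Pool.Agent.Results.MP_cfacaa_ag.ComplementsOverArrangements

variable {m : ℕ} {n q : Fin m → ℕ}

/-- The base: the hyperplanes `ℓ i k = 0` in the projective space of dimension `n i` have weights
`wt i k ≥ 0` with sum at least `n i + 1`, and the arrangements are log canonical (`LcArr`, over the
field of constants). -/
def IsBase (ℓ : ∀ i, Fin (q i) → Fin (n i + 1) → ℂ) (wt : ∀ i, Fin (q i) → ℚ) : Prop :=
  (∀ i, (∀ k, 0 ≤ wt i k) ∧ (n i + 1 : ℚ) ≤ ∑ k, wt i k) ∧
    LcArr (⊥ : IntermediateField ℂ ℂ) ℓ wt

/-- The affine coordinates `x i (j + 1) / x i 0` of the points with the homogeneous coordinates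
`x i`. -/
def affine {K : Type} [Field K] (x : ∀ i, Fin (n i + 1) → K) (b : (i : Fin m) × Fin (n i)) : K :=
  x b.1 b.2.succ / x b.1 0

/-- The multiplicities over the base, at the prime divisors `P` in the set `S`: if the hyperplanes
`ℓ i k` have the multiplicities `v i k` at `P` (their orders are `a i + v i k`, where `a i` is the
minimum of the orders of the coordinates `x i j`), not all zero, then
`1 ≤ ∑ i, (mx_i - ∑ k, wt i k * v i k)`, with strict inequality if the multiplicity of the
distinguished hyperplane `k0 i` is positive for some `i` with `∑ k, wt i k = n i + 1`. -/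
def Multiplicities {K : Type} [Field K] [Algebra ℂ K] (S : Set (Place ℂ K))
    (ℓ : ∀ i, Fin (q i) → Fin (n i + 1) → ℂ) (wt : ∀ i, Fin (q i) → ℚ)
    (x : ∀ i, Fin (n i + 1) → K) (k0 : ∀ i, Fin (q i)) : Prop :=
  ∀ P ∈ S, ∀ (a : Fin m → ℤ) (v : ∀ i, Fin (q i) → ℕ),
    (∀ i, MOrd P (fun k j => algebraMap ℂ K (ℓ i k j)) (x i) (a i) (v i)) → (∃ i, v i ≠ 0) →
    1 ≤ ∑ i, ((mx ℓ i (v i) : ℚ) - ∑ k, wt i k * v i k) ∧
      ((∃ i, ∑ k, wt i k = (n i + 1 : ℚ) ∧ v i (k0 i) ≠ 0) →
        1 < ∑ i, ((mx ℓ i (v i) : ℚ) - ∑ k, wt i k * v i k))

/-- **Abundance.** Let `ℓ i` be log canonical arrangements of hyperplanes with weights `wt i k` with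
sums at least `n i + 1`, as in `IsBase`. Let `X` be a normal projective variety with `m₀ K_X ~ 0`, `L`
and `A` effective `ℚ`-divisors, and `X ⇢ W_l ⇢ ... ⇢ W_0` a tower of dominant rational maps over the
product `W_0` of the projective spaces, given by homogeneous coordinates `x i`, whose steps are as in
`JointFibres`, of dimensions and log Kodaira dimensions `e i`. Suppose that the condition
`Multiplicities` holds, and let the fibres of `X` over `W_l` be as in `Fibres`; all this for the
relevant prime divisors of `X`, which are not in the support of `L`. Then `r j + 1 ≤ ∑ i, w j i` for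
all `j`, and the Kodaira dimension and the numerical dimension of `K_X + L'` are `dim W_l` plus the sum
of the `r j` with `r j + 1 < ∑ i, w j i`, for all effective `ℚ`-divisors `L'` with the same support as
`L`. -/
theorem result (ℓ : ∀ i, Fin (q i) → Fin (n i + 1) → ℂ) (wt : ∀ i, Fin (q i) → ℚ)
    (hℓ : IsBase ℓ wt) (k0 : ∀ i, Fin (q i)) (K : Type) [Field K] [Algebra ℂ K]
    (N l c m₀ : ℕ) (E : Fin (l + 1) → IntermediateField ℂ K) (D : Fin (l + 1) → ℕ)
    (e : Fin l → ℕ) (r s : Fin c → ℕ) (y : Fin (N + 1) → K)
    (L A : Place ℂ K → ℚ) (hy : NormalModel y)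
    (htr : Algebra.trdeg ℂ K = (D (Fin.last l) + ∑ j, r j : ℕ))
    (hK : TorsionCanonical y (D (Fin.last l) + ∑ j, r j) m₀) (hL : Effective y L)
    (hA : Effective y A) (x : ∀ i, Fin (n i + 1) → K)
    (hx0 : ∀ i, x i 0 ≠ 0) (hind : AlgebraicIndependent ℂ (affine x))
    (hE0 : E 0 = IntermediateField.adjoin ℂ (Set.range (affine x)))
    (hm : Multiplicities (Relevant y (D (Fin.last l) + ∑ j, r j) L L A) ℓ wt x k0)
    (hT : IsTower (Relevant y (D (Fin.last l) + ∑ j, r j) L L A) (fun _ => 0) E D e e)
    (w : ∀ j, Fin (s j) → ℚ)
    (hF : Fibres y (D (Fin.last l) + ∑ j, r j) L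
      (Relevant y (D (Fin.last l) + ∑ j, r j) L L A) (E (Fin.last l)) r s w) :
    (∀ j, (r j + 1 : ℚ) ≤ ∑ i, w j i) ∧ ∀ L', SameSupport y L L' →
      kodairaDim y (D (Fin.last l) + ∑ j, r j) L' =
        ((D (Fin.last l) + big r s w : ℕ) : WithBot ℕ) ∧
      ∀ A', Effective y A' → Integral y A' →
        numericalDim y (D (Fin.last l) + ∑ j, r j) L' A' =
          ((D (Fin.last l) + big r s w : ℕ) : EReal) := by
  have hn' : D (Fin.last l) + ∑ j, r j = D 0 + (∑ i, e i + ∑ j, r j) := by
    rw [Pool.Agent.X180.TP.dims fun i => (hT.2 i).2.1, add_assoc]
  have hE0' : E 0 = Pool.Agent.X180.OP.BaseField x := hE0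
  have htr0 : D 0 = ∑ i, n i := by
    have h3 := hT.1 0
    rw [hE0', Pool.Agent.X180.OP.trdeg_base hind] at h3
    exact_mod_cast h3.symm
  have hz : (fun P => (((0 : Place ℂ K → ℚ) P : ℚ) : ℝ)) = fun _ : Place ℂ K => (0 : ℝ) :=
    funext fun P => Rat.cast_zero
  refine of_abundance_tors (tow_triv hy htr hK hL hA hT hF fun lam' h0 => ?_)
  rw [hE0', htr0] at h0
  rw [htr0]
  have h1 := Pool.Agent.X325.OB.lc_base (Δ := 0) hy (fun P hP => hP.1) (fun P _ => le_rfl)
    (fun i => (hℓ.1 i).1) (fun i => (hℓ.1 i).2) hℓ.2 hx0 hind
    (by rw [← htr0, ← hn']; exact htr) Finset.univ k0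
    (fun P hP a v hv hv0 => by
      have h2 := hm P hP a v hv hv0
      rw [Pi.zero_apply, sub_zero]
      exact ⟨h2.1, fun ⟨i, _, h⟩ => h2.2 ⟨i, h⟩⟩)
    (h0.mono fun P _ => by
      rw [hz]
      unfold Pool.Agent.X180.Iso.hor
      split_ifs <;> exact le_rfl)
  rw [hz] at h1
  exact h1

end Pool.Agent.Results.MP_cfacaa_ag.ComplementsOverArrangements
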