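import Pool.Agent.X180.OK.Non
import Pool.Agent.X180.Abn.Sys1

/-!
# Lower bounds for the Iitaka dimension of effective divisors on Calabi-Yau varieties over images of
linear systems

Let `X̄` be a normal projective variety with `m₀ K_X̄ ~ 0`, `m₀ ≥ 1`, `D` a reduced divisor, and
`X = X̄ ∖ D`. Let

  `X̄ ⇢ W_l ⇢ ... ⇢ W_1 ⇢ W_0`, `l ≥ 0`,

be dominant rational maps. Suppose:

* (the base) `W_0`, of dimension `≥ 1`, is the image of a linear system `V` of dimension `n` on `X̄`, and
  there are members `D_i` of `V`, given by elements `φ i`, which span `V` such that `V` is not the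
  direct sum of two nonzero subspaces which together contain all the `φ i`, and if a prime divisor `P`
  of `X` (not a component of `D`) is in one of the `D_i` then the multiplicities of `P` in some `D_i`
  and `D_i'` differ by at least `t`, where `2 t ≥ R (n - dim W_0 + 1) (n - dim W_0 + 2)`, `R = n + 2`
  (and even `R = n + 1`, if there are `n + 3` different members `D_i`). The `D_i` are in arbitrary
  position otherwise; let `k = dim W_0` if the inequality for `t` is strict, and `k = 0` otherwise;
* (the steps of the tower) for each `i < l` the fibres of `W_{i+1}` over `W_i`, of dimension `e_i`,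
  *with the multiplicities of the fibres of `X` over `W_{i+1}`*, correspond to the product of one
  orbifold `V_i` (which does not depend on the point of `W_i`) and of moving log canonical
  arrangements: there are a variety `X'` with a generically finite map `X' ⇢ X̄` (ramified anywhere)
  and a rational map of `X'` to `V_i × P^{r_1} × ... × P^{r_c}`, `r_j ≥ 1`, which is dominant on the
  fibres of `X'` over `W_i`, and whose fibres (over `W_i`) are, up to finite maps, the fibres of
  `X' ⇢ W_{i+1}`; `a (p) ≥ 0` is the log discrepancy of an orbifold divisor at the places `p` of `V_i`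
  in the image of the prime divisors of `X̄` (`a (p) = 0` is allowed: logarithmic poles), and the
  Kodaira dimension of `(V_i, a)` is at least `h_i`; in each `P^{r_j}` there are any hyperplanes
  `A j k = 0`, in any position, which move with the point of a variety finite over `W_i`, with weights
  `w j k ≥ 0`, such that the arrangement is log canonical (the sum of the weights of hyperplanes with a
  common point is at most the codimension of their intersection) and `∑ k, w j k ≥ r_j + 1`. Let `Q` be
  a place of the function field of `X'` over a prime divisor of `X` which dominates `W_i` but not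
  `W_{i+1}`, with ramification index `ε`, let `e j k` be the multiplicities of the hyperplanes at `Q`,
  and `R = ∑ (mx_j - ∑ w j k e j k)`, where `mx_j` is the greatest sum of `r_j + 1` of the `e j k`
  whose hyperplanes have no common point. Then `ε ≤ ν a (p) + R` if `Q` lies over the place `p` of
  `V_i`, with ramification index `ν`; and if `Q` dominates `V_i` then `ε ≤ R`, or `ε ≤ 1` if all `e j k`
  are zero. (No condition at the components of `D`.) Let `λ_i` be the sum of `h_i` and of the `r_j`
  with `∑ k, w j k > r_j + 1`.
* (the fibres of `X̄` over `W_l`) there is a correspondence `X'` as above between `X̄` and a relative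
  product `P^{r_1} × ... × P^{r_c}` over `W_l` (`c = 0` is allowed), with log canonical moving hyperplane
  arrangements with weights in `[0, 1]` (with any sum) and `ε ≤ R` (`ε ≤ 1`, if all `e j k` are zero)
  at the prime divisors of `X` which dominate `W_l`; and at the places over the prime divisors of the
  product `K_X̄ + D` is at most the pull back of the log canonical divisor of the arrangement (`Cor`).
  Let `λ` be the sum of the `r_j` with `∑ k, w j k > r_j + 1`.

Then `∑ k, w j k ≥ r_j + 1` for all `j` (for the fibres over `W_l`), and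

  `κ(K_X̄ + L) ≥ k + ∑ λ_i + λ`

for all effective `ℚ`-divisors `L` with `Supp L = D`. As `m₀ K_X̄ ~ 0`, this means that
`κ(L) ≥ k + ∑ λ_i + λ`.

Relation with the question: let `X̄` be a Calabi-Yau manifold and `L` a nef effective divisor with
`Supp L = D`. If `ν(L) = k + ∑ λ_i + λ` then `κ(L) = ν(L)`, so that `K_X̄ + t L` is nef and abundant, and
klt for small `t > 0`, and `L` is semiample (Kawamata 1985): it is the pull back of an ample divisor by
its Iitaka fibration. The steps of the tower may have any log Kodaira dimension: for instance they may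
be (orbifolds) of Calabi-Yau type, which contribute nothing to `κ(L)`.

Notation: `X̄` is given by the homogeneous coordinates `y` of its generic point, with values in the
function field `K`; prime divisors are places `P` of `K`, `P.ord` is the order along `P`; `Δ P` is the
coefficient of `P` in `D`. `E i` is the function field of `W_i`. Definitions:
`Pool/Agent/X180/OJ/Defs` (`JointFibres`, `IsTower`), `OC/OpenDefs`, `OK/Defs` (`TorsionCanonical`,
`SameSupport`), `OP/Defs`.

Proof: the forms of a step are products of the pull backs of the forms of `V_i`, of determinants of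
logarithmic derivatives of the linear forms, and of one joint Wronskian of the coordinates of `V_i` and
of the `P^{r_j}`; locally, at `Q`, one compares with the arrangement enlarged by a simplex of
logarithmic coordinates of `V_i` at `p` (`Pool.Agent.X180.OJ.joint_est`). The coefficients are
algebraic over the function field of `W_{i+1}`, and their norms are estimated at the prime divisors of
`X̄` (`Pool.Agent.X180.OJ.joint_part`). The forms of the steps are multiplied along adapted regular
vector fields, and with products of generalised Wronskians of the `φ i`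
(`Pool.Agent.TH585.SV.lin_fib`, starting library). The products with powers of the `m₀`-canonical form without zeros are
sections of multiples of `K_X̄ + L`. If some `∑ k, w j k < r_j + 1` then the traces of the pull backs to
`X'` of the sections of `m (K_X̄ + D)` vanish, which is impossible as `K_X̄ + D ~ D` over `ℚ`.
-/

set_option autoImplicit false

open FF Pool.Agent.W602.GT Pool.Agent.Y172 Pool.Agent.Y191
open Pool.Agent.X180.OP (Fibres big)
open Pool.Agent.X180.OJ (IsTower)
open Pool.Agent.X180.OC (IsCompactification openDivisors)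
open Pool.Agent.X180.OK

namespace Pool.Agent.Results.MP_cfacaa_ag.KodairaBoundOverLinearSystems

section

variable {K : Type} [Field K] [Algebra ℂ K]

/-- The function field of the image of the rational map which is given by the linear system `V`: the
field generated by the quotients of the members. -/
noncomputable def ImageField (V : Submodule ℂ K) : IntermediateField ℂ K :=
  IntermediateField.adjoin ℂ {y : K | ∃ f ∈ V, ∃ g ∈ V, y = f / g}

/-- `V` is not the direct sum of two nonzero subspaces which together contain all the `φ i`. -/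
def Indecomposable {q : ℕ} (V : Submodule ℂ K) (φ : Fin q → K) : Prop :=
  ∀ V₁ V₂ : Submodule ℂ K, V₁ ⊔ V₂ = V → V₁ ⊓ V₂ = ⊥ → (∀ i, φ i ∈ V₁ ∨ φ i ∈ V₂) →
    V₁ = ⊥ ∨ V₂ = ⊥

/-- There are `r` members `φ i` of which no two are proportional. -/
def Different (r : ℕ) {q : ℕ} (φ : Fin q → K) : Prop :=
  ∃ τ : Fin r → Fin q, ∀ i j, i ≠ j → ∀ t : ℂ, φ (τ i) ≠ t • φ (τ j)

/-- The condition on the multiplicities: if the prime divisor `P` of `X` in `S` is a component of one
of the divisors `D i` (the order of `φ i` at `P` is not the minimum `a` of the orders of the members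
of `V`), then for some members `D i`, `D i'` the difference of the multiplicities of `P` is at least
`t (1 - Δ P)`. -/
def SystemMultiplicities (S : Set (Place ℂ K)) (Δ : Place ℂ K → ℚ) {q : ℕ} (V : Submodule ℂ K)
    (φ : Fin q → K) (t : ℝ) : Prop :=
  ∀ P ∈ S, ∀ a : ℤ, (∀ f ∈ V, f = 0 ∨ a ≤ P.ord f) →
    (∃ f ∈ V, f ≠ 0 ∧ P.ord f = a) → (∃ i, P.ord (φ i) ≠ a) →
    ∃ i i', t * (1 - Δ P) ≤ ((P.ord (φ i) - P.ord (φ i') : ℤ) : ℝ)

end

/-- **Lower bound.** Let `X̄` be a normal projective variety with `m₀ K_X̄ ~ 0` and `X = X̄ ∖ D`, `V` a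
linear system on `X̄` of dimension `n` whose rational map has the image `W_0`,
`1 ≤ D 0 = dim W_0 ≤ n`, and `X ⇢ W_l ⇢ ... ⇢ W_0` a tower of dominant rational maps whose steps are as
in `JointFibres`, of dimensions `e i` and log Kodaira dimensions `lam i`. Let `φ i` be nonzero members
which span `V`, such that `V` is not the direct sum of two nonzero subspaces which together contain all
the `φ i`. Let `R = n + 2`, or `R = n + 1` if there are `n + 3` different members `φ i`, and
`t ≥ R (n - D 0 + 1) (n - D 0 + 2) / 2` a number for which the condition on the multiplicities holds at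
the prime divisors of `X`. Let the fibres of `X` over `W_l` be as in `Fibres`. Then
`r j + 1 ≤ ∑ i, w j i` for all `j`, and `κ(K_X̄ + L) ≥ ∑ i, lam i + big` for all effective `ℚ`-divisors
`L` with the support `D`, and `κ(K_X̄ + L) ≥ dim W_0 + ∑ i, lam i + big` if the inequality for `t` is
strict. -/
theorem result {n q : ℕ} (K : Type) [Field K] [Algebra ℂ K] (N l c m₀ : ℕ)
    (E : Fin (l + 1) → IntermediateField ℂ K) (D : Fin (l + 1) → ℕ) (e lam : Fin l → ℕ)
    (hd : 1 ≤ D 0) (hdn : D 0 ≤ n) (r s : Fin c → ℕ) (y : Fin (N + 1) → K)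
    (Δ : Place ℂ K → ℚ) (hy : IsCompactification y (D (Fin.last l) + ∑ j, r j) Δ)
    (hK : TorsionCanonical y (D (Fin.last l) + ∑ j, r j) m₀)
    (V : Submodule ℂ K) (hn : Module.finrank ℂ V = n + 1) (hE0 : E 0 = ImageField V)
    (hT : IsTower {P | IsPrimeDivisor y P} (fun P => (Δ P : ℝ)) E D e lam)
    (φ : Fin q → K) (hφ0 : ∀ i, φ i ≠ 0) (hφ : Submodule.span ℂ (Set.range φ) = V)
    (hI : Indecomposable V φ) (R : ℕ) (hR : R = n + 2 ∨ (Different (n + 3) φ ∧ R = n + 1)) (t : ℝ)
    (ht : (R : ℝ) * (((n : ℝ) - D 0 + 1) * ((n : ℝ) - D 0 + 2)) ≤ 2 * t)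
    (hm : SystemMultiplicities {P | IsPrimeDivisor y P} Δ V φ t)
    (w : ∀ j, Fin (s j) → ℚ)
    (hF : Fibres y (D (Fin.last l) + ∑ j, r j) Δ (openDivisors y Δ) (E (Fin.last l)) r s w) :
    (∀ j, (r j + 1 : ℚ) ≤ ∑ i, w j i) ∧ ∀ L, SameSupport y Δ L →
      ((∑ i, lam i + big r s w : ℕ) : WithBot ℕ) ≤
        kodairaDim y (D (Fin.last l) + ∑ j, r j) L ∧
      ((R : ℝ) * (((n : ℝ) - D 0 + 1) * ((n : ℝ) - D 0 + 2)) < 2 * t →
        ((D 0 + ∑ i, lam i + big r s w : ℕ) : WithBot ℕ) ≤
          kodairaDim y (D (Fin.last l) + ∑ j, r j) L) := by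
  have hn' : D (Fin.last l) + ∑ j, r j = D 0 + (∑ i, e i + ∑ j, r j) := by
    rw [Pool.Agent.X180.TP.dims fun i => (hT.2 i).2.1, add_assoc]
  have hV : Algebra.trdeg ℂ (ImageField V) = (D 0 : ℕ) := by
    rw [← hE0]
    exact hT.1 0
  have hK' : Algebra.trdeg ℂ K = (D 0 + (∑ i, e i + ∑ j, r j) : ℕ) := by
    rw [← hn']
    exact hy.1.2.1
  have h2 : ∀ lam' : ℕ, Pool.Agent.X180.Tow.HasForms (D 0 + (∑ i, e i + ∑ j, r j))
      {P | IsPrimeDivisor y P} (Pool.Agent.X180.Iso.hor (E 0) fun P => (Δ P : ℝ)) (E 0)
      (∑ i, e i + ∑ j, r j) lam' →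
      KodairaGe (D 0 + (∑ i, e i + ∑ j, r j)) {P | IsPrimeDivisor y P} (fun P => (Δ P : ℝ)) lam' ∧
      ((R : ℝ) * (((n : ℝ) - D 0 + 1) * ((n : ℝ) - D 0 + 2)) < 2 * t → ∀ κ : ℕ, κ + 1 = D 0 + 1 →
        KodairaGe (D 0 + (∑ i, e i + ∑ j, r j)) {P | IsPrimeDivisor y P} (fun P => (Δ P : ℝ))
          (κ + lam')) := by
    intro lam' h0
    rw [hE0] at h0
    exact Pool.Agent.X180.Iso.sys_pair (c := 1) hd hdn hK' hV hφ0 hφ
      (Pool.Agent.X180.Abn.dcp_one hφ hn) (Pool.Agent.X180.Abn.not_dcp hI)
      (hR.imp (fun h => by omega) fun h => ⟨rfl, h⟩) ht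
      (fun P hP => Rat.cast_nonneg.2 (hy.1.2.2.1 P hP)) (fun P hPX _ a ha hb hc => by
        obtain ⟨i, i', h⟩ := hm P hPX a ha hb hc
        exact ⟨i, i', rfl, h⟩) h0
  have h3 := tow_bound (k := 0) hy hK hT hF fun lam' h0 => by
    rw [zero_add]
    exact (h2 lam' h0).1
  refine ⟨h3.1, fun L hL => ⟨?_, fun hs => ?_⟩⟩
  · have h4 := h3.2 L hL
    rwa [zero_add] at h4
  · exact (tow_bound hy hK hT hF fun lam' h0 => (h2 lam' h0).2 hs (D 0) rfl).2 L hL

end Pool.Agent.Results.MP_cfacaa_ag.KodairaBoundOverLinearSystems
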