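import Pool.Agent.X180.OK.LogNon

/-!
# Abundance for effective divisors on log Calabi-Yau pairs over orbifold bases

Let `X` be a normal projective variety and `Δ` an effective `ℚ`-divisor on `X` with `m₀ (K_X + Δ) ~ 0`
for some `m₀ ≥ 1` (a log Calabi-Yau pair; for instance `Δ = 0` and `X` a Calabi-Yau manifold), and `L`
an effective `ℚ`-divisor on `X`. A prime divisor of `X` is *relevant* if it is not in the support of
`L`, and not in the base locus of all `m (K_X + Δ + L + η A)`, for small `η ≥ 0` (`A` a given effective
divisor; so the divisors in the diminished base locus of `L` may be neglected; if `L` is nef and `A` is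
ample, all prime divisors of `X ∖ Supp L` are relevant). Let

  `X ⇢ W_l ⇢ ... ⇢ W_1 ⇢ W_0`, `l ≥ 0`,

be dominant rational maps. Suppose:

* (the base) for some `m > 0` there are `m`-canonical forms on `W_0` with `dim W_0` algebraically
  independent ratios, with poles of order at most `m (1 - max (1 - Δ P) 0 / ν)` at the place `p` of the
  function field of `W_0`, if the relevant prime divisor `P` of `X` lies over `p`, with multiplicity
  `ν`; there is no condition at the places `p` over which only components of `L` lie. That is, the
  orbifold base of `(X ∖ Supp L, Δ)` over `W_0` is of log general type. (`W_0` may be a point, or any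
  rational variety.)
* (the steps of the tower) for each `i < l` the fibres of `W_{i+1}` over `W_i`, of dimension `e_i`,
  *with the boundary and the multiplicities of the fibres of `(X ∖ Supp L, Δ)` over `W_{i+1}`*,
  correspond to the product of one orbifold `V_i` (which does not depend on the point of `W_i`) and of
  moving log canonical arrangements: there are a variety `X'` with a generically finite map `X' ⇢ X`
  (ramified anywhere) and a rational map of `X'` to `V_i × P^{r_1} × ... × P^{r_c}`, `r_j ≥ 1`, which is
  dominant on the fibres of `X'` over `W_i`, and whose fibres (over `W_i`) are, up to finite maps, the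
  fibres of `X' ⇢ W_{i+1}`; `a (p) ≥ 0` is the log discrepancy of an orbifold divisor at the places `p`
  of `V_i` in the image of the relevant prime divisors, and the Kodaira dimension of `(V_i, a)` is at
  least `h_i`; in each `P^{r_j}` there are any hyperplanes `A j k = 0`, in any position, which move with
  the point of a variety finite over `W_i`, with weights `w j k ≥ 0`, such that the arrangement is log
  canonical (the sum of the weights of hyperplanes with a common point is at most the codimension of
  their intersection) and `∑ k, w j k ≥ r_j + 1`. Let `Q` be a place of the function field of `X'` over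
  a relevant prime divisor `P` with `Δ P < 1` which dominates `W_i` but not `W_{i+1}`, with ramification
  index `ε`, let `e j k` be the multiplicities of the hyperplanes at `Q`, and
  `R = ∑ (mx_j - ∑ w j k e j k)`, where `mx_j` is the greatest sum of `r_j + 1` of the `e j k` whose
  hyperplanes have no common point. Then `ε (1 - Δ P) ≤ ν a (p) + R` if `Q` lies over the place `p` of
  `V_i`, with ramification index `ν`; and if `Q` dominates `V_i` then `ε (1 - Δ P) ≤ R`, or
  `ε (1 - Δ P) ≤ 1` if all `e j k` are zero. Suppose that `h_i` plus the sum of the `r_j` with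
  `∑ k, w j k > r_j + 1` is `e_i`.
* (the fibres of `X` over `W_l`) there is a correspondence `X'` as above between `X` and a relative
  product `P^{r_1} × ... × P^{r_c}` over `W_l` (`c = 0` is allowed), with log canonical moving hyperplane
  arrangements with weights in `[0, 1]` and `ε (1 - Δ P) ≤ R` (`ε (1 - Δ P) ≤ 1`, if all `e j k` are zero)
  at the relevant prime divisors `P` which dominate `W_l`, with `Δ P < 1`; and at the places over the
  prime divisors of the product `K_X + Δ + L` is at most the pull back of the log canonical divisor of
  the arrangement (`Cor`).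

Then `∑ k, w j k ≥ r_j + 1` for all `j` (for the fibres over `W_l`), and

  `κ(K_X + Δ + L') = ν(K_X + Δ + L') = dim W_l + λ`

for all effective `ℚ`-divisors `L'` with `Supp L' = Supp L`, where `λ` is the sum of the `r_j` with
`∑ k, w j k > r_j + 1`. (Here `K_X + Δ + L' ~ L'` over `ℚ`.)

Relation with the question: let `(X, Δ)` be klt, for instance `X` a Calabi-Yau manifold and `Δ = 0`, and
`L'` a nef effective divisor with the support of `L`. By the theorem `κ = ν` for `K_X + Δ + t L' ~ t L'`,
which is nef and abundant, and an adjoint divisor of a klt pair for small `t > 0`; so `L'` is semiample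
(Kawamata 1985), the pull back of an ample class by the morphism `g : X → B` which its multiples
define (`dim B = dim W_l + λ`).

Notation: `X` is given by the homogeneous coordinates `y` of its generic point, with values in the
function field `K`; prime divisors are places `P` of `K`, `P.ord` is the order along `P`. `E i` is the
function field of `W_i`. `kodairaDim` and `numericalDim` are the literal definitions of the Kodaira
and of the numerical dimension by means of the dimensions of the spaces of sections of
`m (K_X + Δ + L')` and of `m (K_X + Δ + L') + A`. Definitions: `Pool/Agent/X180/OK/LogDefs`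
(`LogTrivial`), `OK/Defs` (`SameSupport`), `OJ/Defs` (`JointFibres`, `IsTower`), `OJ/PairBaseDefs`
(`BaseKodGe`), `OP/Defs`, `AbDefs`.

Proof: the theorem is deduced from a theorem on pairs `(X, D)`, for `D = Δ + L`, `Γ = L`, where `Γ` is a
divisor along which there are no conditions if `K_X + D - Γ` is pseudo-effective: here it is trivial.
The forms of a step are products of the pull backs of the forms of `V_i`, of determinants of
logarithmic derivatives of the linear forms, and of one joint Wronskian of the coordinates of `V_i` and
of the `P^{r_j}` (`Pool.Agent.X180.OJ.joint_est`). They are multiplied along adapted regular vector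
fields, and with forms of the orbifold base (`Pool.Agent.X180.OJ.pair_base`).
-/

set_option autoImplicit false

open FF Pool.Agent.W602.GT Pool.Agent.Y172 Pool.Agent.Y191
open Pool.Agent.X180.OP (Fibres Relevant big)
open Pool.Agent.X180.OJ (IsTower BaseKodGe pair_base)
open Pool.Agent.X180.OK

namespace Pool.Agent.Results.MP_cfacaa_ag.LogPairsOverOrbifoldBases

/-- **Abundance.** Let `X` be a normal projective variety, `Δ`, `L` and `A` effective `ℚ`-divisors with
`m₀ (K_X + Δ) ~ 0`, and `X ⇢ W_l ⇢ ... ⇢ W_0` a tower such that the orbifold base of `(X ∖ Supp L, Δ)`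
over `W_0` is of log general type, the steps, with the boundary `Δ`, are as in `JointFibres`, of
dimensions and log Kodaira dimensions `e i`, and the fibres of `X` over `W_l` are as in `Fibres`; all
this for the relevant prime divisors of `X`, which are not in the support of `L`. Then
`r j + 1 ≤ ∑ i, w j i` for all `j`, and the Kodaira dimension and the numerical dimension of
`K_X + Δ + L'` are `dim W_l` plus the sum of the `r j` with `r j + 1 < ∑ i, w j i`, for all effective
`ℚ`-divisors `L'` with the same support as `L`. -/
theorem result (K : Type) [Field K] [Algebra ℂ K] (N l c m₀ : ℕ)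
    (E : Fin (l + 1) → IntermediateField ℂ K) (D : Fin (l + 1) → ℕ) (e : Fin l → ℕ)
    (r s : Fin c → ℕ) (y : Fin (N + 1) → K) (Δ L A : Place ℂ K → ℚ)
    (hy : NormalModel y) (hn : Algebra.trdeg ℂ K = (D (Fin.last l) + ∑ j, r j : ℕ))
    (hΔ : Effective y Δ) (hK : LogTrivial y (D (Fin.last l) + ∑ j, r j) m₀ Δ)
    (hL : Effective y L) (hA : Effective y A) [Algebra.EssFiniteType ℂ (E 0)]
    (hY : BaseKodGe (Relevant y (D (Fin.last l) + ∑ j, r j) (Δ + L) L A) (fun P => (Δ P : ℝ))
      (E 0) (D 0) (D 0))
    (hT : IsTower (Relevant y (D (Fin.last l) + ∑ j, r j) (Δ + L) L A) (fun P => (Δ P : ℝ))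
      E D e e)
    (w : ∀ j, Fin (s j) → ℚ)
    (hF : Fibres y (D (Fin.last l) + ∑ j, r j) (Δ + L)
      {P | P ∈ Relevant y (D (Fin.last l) + ∑ j, r j) (Δ + L) L A ∧ Δ P < 1}
      (E (Fin.last l)) r s w) :
    (∀ j, (r j + 1 : ℚ) ≤ ∑ i, w j i) ∧ ∀ L', SameSupport y L L' →
      kodairaDim y (D (Fin.last l) + ∑ j, r j) (Δ + L') =
        ((D (Fin.last l) + big r s w : ℕ) : WithBot ℕ) ∧
      ∀ A', Effective y A' → Integral y A' →
        numericalDim y (D (Fin.last l) + ∑ j, r j) (Δ + L') A' =
          ((D (Fin.last l) + big r s w : ℕ) : EReal) := by
  have hn' : D (Fin.last l) + ∑ j, r j = D 0 + (∑ i, e i + ∑ j, r j) := by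
    rw [Pool.Agent.X180.TP.dims fun i => (hT.2 i).2.1, add_assoc]
  have hK' : Algebra.trdeg ℂ K = (D 0 + (∑ i, e i + ∑ j, r j) : ℕ) := by
    rw [← hn', hn]
  exact tow_log hy hn hΔ hK hL hA hT hF fun lam' h0 => pair_base hK' (hT.1 0)
    (fun P hP => Rat.cast_nonneg.2 (hΔ.1 P hP.1)) hY h0

end Pool.Agent.Results.MP_cfacaa_ag.LogPairsOverOrbifoldBases
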