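import Pool.Agent.TH735.AQ.Crit
import Pool.Agent.TH128.SYZ.PsefConv

set_option autoImplicit false

/-!
# Strong abundance for classes on quotients of complex tori by finite groups

Let `X = V / Γ` be the quotient of a complex torus of any dimension by any finite group; if the group
acts freely and `X` is projective then `X` is a Calabi-Yau manifold in the sense of the problem (the
manifolds which have an abelian variety as an étale cover). The class of a line bundle `L` is given by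
its Chern form `H`. The theorem says: the class of `L` is nef, if and only if it is pseudo-effective,
if and only if it is a pullback of an ample class under a fibration, and the fibration is unique.

`latt`, `IsTorusQuotient` and `LineBundle` are defined in `Pool.Agent.W594.SYZ.Defs2`; `IsChernForm`,
`IsNefForm` and `IsPositiveForm` in `Pool.Agent.W594.SYZ.TQDefs`; `IsFibration` and `IsFlat` in
`Pool.Agent.TH735.AQ.Defs`; `IsLogPsh` and `IsPseudoEffective` in `Pool.Agent.TH128.SYZ.PsefDefs`.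
-/

namespace Pool.Agent.Results.MP_cfacaa_ag.TorusQuotients

open Pool.Agent.W594.SYZ2 Pool.Agent.TH735.AQ Pool.Agent.TH128.SYZ

/-- The fibration `f : X = V / Γ → B = ℂ ^ n / Δ` is given by the linear map `π`, and the class of `L`
is the pullback of an ample rational class on `B`: there are `k ≥ 1`, a flat line bundle `P` and an
ample line bundle `A` on `B` such that `L ^ k ⊗ P` is isomorphic to `f^* A`. The pullback is given by
the factor of automorphy `γ ↦ A.e δ (π v)`, `δ` the transformation induced by `γ`, and the isomorphism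
is the multiplication with the nowhere vanishing function `h`. -/
def IsClassFibration {V : Type*} [NormedAddCommGroup V] [NormedSpace ℂ V]
    {Γ : Subgroup (V ≃ᵃ[ℂ] V)} (L : LineBundle Γ) (n : ℕ)
    (Δ : Subgroup ((Fin n → ℂ) ≃ᵃ[ℂ] (Fin n → ℂ))) (π : V →ₗ[ℂ] (Fin n → ℂ)) : Prop :=
  IsFibration Γ Δ π ∧ ∃ (k : ℕ) (P : LineBundle Γ), 1 ≤ k ∧ IsFlat P ∧
    ∃ (A : LineBundle Δ) (HA : (Fin n → ℂ) → (Fin n → ℂ) → ℂ),
      IsChernForm A HA ∧ IsPositiveForm HA ∧
      ∃ h : V → ℂ, Differentiable ℂ h ∧ (∀ v, h v ≠ 0) ∧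
        ∀ (γ : Γ) (δ : Δ), (∀ v, (δ : (Fin n → ℂ) ≃ᵃ[ℂ] (Fin n → ℂ)) (π v) =
          π ((γ : V ≃ᵃ[ℂ] V) v)) →
          ∀ v, h ((γ : V ≃ᵃ[ℂ] V) v) * (L.e γ v ^ k * P.e γ v) = A.e δ (π v) * h v

theorem of_induces {V : Type*} [NormedAddCommGroup V] [NormedSpace ℂ V]
    {Γ : Subgroup (V ≃ᵃ[ℂ] V)} {L P : LineBundle Γ} {n k : ℕ}
    {Δ : Subgroup ((Fin n → ℂ) ≃ᵃ[ℂ] (Fin n → ℂ))} {π : V →ₗ[ℂ] (Fin n → ℂ)} (hk : 1 ≤ k)
    (hP : IsFlat P) (h1 : IsFibration Γ Δ π) (h2 : Induces (tensor (L.pow k) P) Δ π) :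
    IsClassFibration L n Δ π := by
  obtain ⟨m, hm, A, HA, hA, hpos, h, hh, hne, heq⟩ := h2
  refine ⟨h1, k * m, P.pow m, Nat.mul_pos hk hm, ⟨fun γ v w => ?_, fun γ v => ?_⟩, A, HA, hA, hpos,
    h, hh, hne, fun γ δ hγδ v => ?_⟩
  · change P.e γ v ^ m = P.e γ w ^ m
    rw [hP.1 γ v w]
  · change ‖P.e γ v ^ m‖ = 1
    rw [norm_pow, hP.2, one_pow]
  · have h3 := heq γ δ hγδ v
    change h ((γ : V ≃ᵃ[ℂ] V) v) * (L.e γ v ^ k * P.e γ v) ^ m = _ at h3
    change h ((γ : V ≃ᵃ[ℂ] V) v) * (L.e γ v ^ (k * m) * P.e γ v ^ m) = _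
    rw [pow_mul, ← mul_pow]
    exact h3

theorem induces_of {V : Type*} [NormedAddCommGroup V] [NormedSpace ℂ V]
    {Γ : Subgroup (V ≃ᵃ[ℂ] V)} {L : LineBundle Γ} {n : ℕ}
    {Δ : Subgroup ((Fin n → ℂ) ≃ᵃ[ℂ] (Fin n → ℂ))} {π : V →ₗ[ℂ] (Fin n → ℂ)}
    (h : IsClassFibration L n Δ π) : IsFibration Γ Δ π ∧ ∃ (k : ℕ) (P : LineBundle Γ), 1 ≤ k ∧
      IsFlat P ∧ Induces (tensor (L.pow k) P) Δ π := by
  obtain ⟨h1, k, P, hk, hP, A, HA, hA, hpos, h, hh, hne, heq⟩ := h
  refine ⟨h1, k, P, hk, hP, 1, le_rfl, A, HA, hA, hpos, h, hh, hne, fun γ δ hγδ v => ?_⟩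
  change h ((γ : V ≃ᵃ[ℂ] V) v) * (L.e γ v ^ k * P.e γ v) ^ 1 = _
  rw [pow_one]
  exact heq γ δ hγδ v

/-- Let `X = V / Γ` be the quotient of a complex torus by a finite group and `L` a line bundle on `X`
with Chern form `H`. Then `L` is nef, if and only if it is pseudo-effective, if and only if its class
is the pullback of an ample rational class under a fibration `X → B` onto a torus quotient, given by a
linear map `π`. For all these fibrations the kernel of `π` is the kernel of `H`, and they are unique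
up to a linear isomorphism `e` of the universal covers of the targets, which conjugates `Δ` to `Δ'`. -/
theorem result {V : Type*} [NormedAddCommGroup V] [NormedSpace ℂ V] [FiniteDimensional ℂ V]
    (Γ : Subgroup (V ≃ᵃ[ℂ] V)) (hΓ : IsTorusQuotient Γ) (L : LineBundle Γ) (H : V → V → ℂ)
    (hc : IsChernForm L H) :
    [IsNefForm H, IsPseudoEffective L, ∃ n Δ π, IsClassFibration L n Δ π].TFAE ∧
    ∀ n Δ π, IsClassFibration L n Δ π → (∀ v, π v = 0 ↔ ∀ w, H v w = 0) ∧
      ∀ n' Δ' π', IsClassFibration L n' Δ' π' → ∃ e : (Fin n → ℂ) ≃ₗ[ℂ] (Fin n' → ℂ),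
        (∀ v, π' v = e (π v)) ∧ ∀ δ : (Fin n → ℂ) ≃ᵃ[ℂ] (Fin n → ℂ),
          δ ∈ Δ ↔ (e.symm.toAffineEquiv.trans δ).trans e.toAffineEquiv ∈ Δ' := by
  have hker : ∀ n Δ π, IsClassFibration L n Δ π → IsNefForm H ∧ ∀ v, π v = 0 ↔ ∀ w, H v w = 0 := by
    intro n Δ π h
    obtain ⟨h1, k, P, hk, hP, h2⟩ := induces_of h
    exact kernel_of_induces hΓ hc hP hk h1 h2
  constructor
  · tfae_have 1 ↔ 2 := (psef_iff_nef hΓ hc).symm
    tfae_have 1 → 3 := by
      intro hn
      obtain ⟨k, P, hk, hP, n, Δ, π, -, h1, h2⟩ := numerical hΓ hc hn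
      exact ⟨n, Δ, π, of_induces hk hP h1 h2⟩
    tfae_have 3 → 1 := fun ⟨n, Δ, π, h⟩ => (hker n Δ π h).1
    tfae_finish
  · intro n Δ π h
    refine ⟨(hker n Δ π h).2, fun n' Δ' π' h' => ?_⟩
    have hs := h.1.surj
    have hs' := h'.1.surj
    have hk : LinearMap.ker π = LinearMap.ker π' := by
      ext v
      rw [LinearMap.mem_ker, LinearMap.mem_ker, (hker n Δ π h).2 v, (hker n' Δ' π' h').2 v]
    let e1 := π.quotKerEquivOfSurjective hs
    let e2 := π'.quotKerEquivOfSurjective hs'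
    let e3 := Submodule.quotEquivOfEq _ _ hk
    let e : (Fin n → ℂ) ≃ₗ[ℂ] (Fin n' → ℂ) := (e1.symm.trans e3).trans e2
    have he : ∀ v, π' v = e (π v) := by
      intro v
      have h1 : e1.symm (π v) = Submodule.Quotient.mk v := by
        rw [LinearEquiv.symm_apply_eq]
        rfl
      change π' v = e2 (e3 (e1.symm (π v)))
      rw [h1]
      rfl
    refine ⟨e, he, fun δ => ?_⟩
    constructor
    · intro hδ
      obtain ⟨γ, hγ, h1⟩ := h.1.onto δ hδ
      obtain ⟨δ', hδ', h2⟩ := h'.1.maps γ hγ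
      have h3 : (e.symm.toAffineEquiv.trans δ).trans e.toAffineEquiv = δ' := by
        ext1 w
        obtain ⟨v, rfl⟩ := hs' w
        change e (δ (e.symm (π' v))) = δ' (π' v)
        rw [h2 v, he v, LinearEquiv.symm_apply_apply, h1 v, he]
      rw [h3]
      exact hδ'
    · intro hδ
      obtain ⟨γ, hγ, h1⟩ := h'.1.onto _ hδ
      obtain ⟨δ', hδ', h2⟩ := h.1.maps γ hγ
      have h3 : δ = δ' := by
        ext1 w
        obtain ⟨v, rfl⟩ := hs w
        have h4 := h1 v
        change e (δ (e.symm (π' v))) = π' (γ v) at h4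
        rw [he v, LinearEquiv.symm_apply_apply, he (γ v)] at h4
        rw [e.injective h4, h2 v]
      rw [h3]
      exact hδ'

end Pool.Agent.Results.MP_cfacaa_ag.TorusQuotients
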